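import Pool.Agent.Helper5.GorFin

set_option autoImplicit false

/-!
A reduced arithmetically Gorenstein set of 5120 points of the complex projective space of
dimension 648 with the h-vector (1, 648, 1279, 1264, 1279, 648, 1), which is not unimodal.
-/

namespace Pool.Agent.Results.MP_845d9e_ag.GorensteinPoints

open MvPolynomial

noncomputable section

variable {K : Type} [Field K] {n : ℕ}

/-- The homogeneous ideal of a finite set of points of projective space: it is generated by the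
homogeneous polynomials which vanish at every point of the set. -/
def pointIdeal (Z : Finset (Projectivization K (Fin (n + 1) → K))) :
    Ideal (MvPolynomial (Fin (n + 1)) K) :=
  Ideal.span {f | (∃ d, f.IsHomogeneous d) ∧ ∀ p ∈ Z, eval p.rep f = 0}

/-- The Hilbert function of the coordinate ring `R / I_Z`: the dimension of the image of the
forms of degree `i`. -/
def hilbertFunction (Z : Finset (Projectivization K (Fin (n + 1) → K))) (i : ℕ) : ℕ :=
  Module.finrank K ((homogeneousSubmodule (Fin (n + 1)) K i).map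
    (Ideal.Quotient.mkₐ K (pointIdeal Z)).toLinearMap)

/-- The h-vector: the first difference of the Hilbert function. -/
def hVector (Z : Finset (Projectivization K (Fin (n + 1) → K))) (i : ℕ) : ℤ :=
  (hilbertFunction Z i : ℤ) - (if i = 0 then 0 else (hilbertFunction Z (i - 1) : ℤ))

/-- A linear form which vanishes at no point of the set. -/
def Avoids (l : MvPolynomial (Fin (n + 1)) K)
    (Z : Finset (Projectivization K (Fin (n + 1) → K))) : Prop :=
  l.IsHomogeneous 1 ∧ ∀ p ∈ Z, eval p.rep l ≠ 0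

/-- The socle of `R / J`: the elements killed by all variables. -/
def socle (J : Ideal (MvPolynomial (Fin (n + 1)) K)) :
    Submodule K (MvPolynomial (Fin (n + 1)) K ⧸ J) where
  carrier := {x | ∀ j, Ideal.Quotient.mk J (X j) * x = 0}
  zero_mem' := fun j => mul_zero _
  add_mem' := by
    intro x y hx hy j
    rw [mul_add, hx j, hy j, add_zero]
  smul_mem' := by
    intro c x hx j
    rw [mul_smul_comm, hx j, smul_zero]

/-- Arithmetically Gorenstein sets of points: some linear form vanishes at no point of the set,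
and for every such form the socle of `R / (I_Z + (l))` is one-dimensional. -/
def IsArithGorenstein (Z : Finset (Projectivization K (Fin (n + 1) → K))) : Prop :=
  (∃ l, Avoids l Z) ∧
    ∀ l, Avoids l Z → Module.finrank K (socle (pointIdeal Z ⊔ Ideal.span {l})) = 1

/-- Unimodality of a sequence. -/
def IsUnimodal (h : ℕ → ℤ) : Prop :=
  ∃ j, (∀ i, i < j → h i ≤ h (i + 1)) ∧ ∀ i, j ≤ i → h (i + 1) ≤ h i

open Pool.Agent.Helper5.GorPts in
/-- There is a reduced arithmetically Gorenstein set of points whose h-vector is not unimodal. -/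
theorem result :
    ∃ Z : Finset (Projectivization ℂ (Fin (648 + 1) → ℂ)),
      Z.card = 5120 ∧
      (∀ p ∈ Z, ∃ (v : Fin (648 + 1) → ℂ) (hv : v ≠ 0), (∀ i, v i ^ 10 = 1) ∧
        p = Projectivization.mk ℂ v hv) ∧
      IsArithGorenstein Z ∧
      hVector Z 0 = 1 ∧ hVector Z 1 = 648 ∧ hVector Z 2 = 1279 ∧ hVector Z 3 = 1264 ∧
      hVector Z 4 = 1279 ∧ hVector Z 5 = 648 ∧ hVector Z 6 = 1 ∧
      (∀ i, 6 < i → hVector Z i = 0) ∧
      ¬ IsUnimodal (hVector Z) := by
  obtain ⟨a, ha⟩ := exists_enum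
  have hlen : Len a Ln := len_of_gen a ha
  obtain ⟨j0, hj0⟩ := (ha 0).1 gen_zero
  have h1 : ∀ χ : AddChar Gr ℂ, χ (a j0) = 1 := fun χ => by
    rw [hj0, AddChar.map_zero_eq_one]
  have hne : ∀ χ : AddChar Gr ℂ, (fun i => χ (a i)) ≠ 0 := fun χ h0 => by
    have h2 := congrFun h0 j0
    simp only [Pi.zero_apply] at h2
    rw [h1 χ] at h2
    exact one_ne_zero h2
  obtain ⟨pt, hpt⟩ : ∃ pt : AddChar Gr ℂ → Projectivization ℂ (Fin (648 + 1) → ℂ),
      ∀ χ, pt χ = Projectivization.mk ℂ (fun i => χ (a i)) (hne χ) := ⟨_, fun _ => rfl⟩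
  have hinj : Function.Injective pt := by
    intro χ ψ h
    rw [hpt, hpt, Projectivization.mk_eq_mk_iff'] at h
    obtain ⟨c, hc⟩ := h
    have h2 := congrFun hc j0
    rw [Pi.smul_apply, h1, h1, smul_eq_mul, mul_one] at h2
    refine char_ext (a := a) (L := Ln) hlen.pred fun i => ?_
    have h3 := congrFun hc i
    rw [Pi.smul_apply, h2, one_smul] at h3
    exact h3.symm
  have hrep : ∀ χ, ∃ c : ℂ, c ≠ 0 ∧ (pt χ).rep = c • fun i => χ (a i) := by
    intro χ
    obtain ⟨c, hc⟩ := Projectivization.exists_smul_eq_mk_rep ℂ (fun i => χ (a i)) (hne χ)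
    refine ⟨c, c.ne_zero, ?_⟩
    rw [hpt, ← hc]
    rfl
  have hev : ∀ (f : MvPolynomial (Fin (648 + 1)) ℂ) (d : ℕ), f.IsHomogeneous d →
      ∀ χ, (eval (pt χ).rep f = 0 ↔ eval (fun i => χ (a i)) f = 0) := by
    intro f d hf χ
    obtain ⟨c, hc0, hc⟩ := hrep χ
    rw [hc, eval_hom hf, eval_one' hf]
    constructor
    · intro h
      exact (mul_eq_zero.1 h).resolve_left (pow_ne_zero _ hc0)
    · intro h
      rw [h, mul_zero]
  obtain ⟨Z, hZ⟩ : ∃ Z : Finset (Projectivization ℂ (Fin (648 + 1) → ℂ)),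
      Z = Finset.univ.map ⟨pt, hinj⟩ := ⟨_, rfl⟩
  have hZm : ∀ p, p ∈ Z ↔ ∃ χ, pt χ = p := by
    intro p
    rw [hZ]
    simp
  have hideal : pointIdeal Z = Ideal.span {f : MvPolynomial (Fin (648 + 1)) ℂ |
      (∃ d, f.IsHomogeneous d) ∧ ∀ χ : AddChar Gr ℂ, eval (fun i => χ (a i)) f = 0} := by
    unfold pointIdeal
    apply congrArg
    ext f
    constructor
    · rintro ⟨⟨d, hd⟩, h⟩
      exact ⟨⟨d, hd⟩, fun χ => (hev f d hd χ).1 (h _ ((hZm _).2 ⟨χ, rfl⟩))⟩
    · rintro ⟨⟨d, hd⟩, h⟩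
      refine ⟨⟨d, hd⟩, fun p hp => ?_⟩
      obtain ⟨χ, rfl⟩ := (hZm p).1 hp
      exact (hev f d hd χ).2 (h χ)
  have hI : IsI a (pointIdeal Z) := by
    rw [hideal]
    exact isI_span a
  have hhilb : ∀ i, hilbertFunction Z i =
      ∑ k ∈ Finset.range (i + 1), (Finset.univ.filter fun g : Gr => Ln g = k).card := by
    intro i
    unfold hilbertFunction
    rw [hilb_eq hlen hj0 hI i, card_le]
  have hh : ∀ i, hVector Z i = ((Finset.univ.filter fun g : Gr => Ln g = i).card : ℤ) := by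
    intro i
    unfold hVector
    rcases i with _ | i
    · rw [hhilb, if_pos rfl, zero_add, Finset.sum_range_one, sub_zero]
    · rw [hhilb, if_neg (Nat.succ_ne_zero i), Nat.add_sub_cancel, hhilb,
        Finset.sum_range_succ _ (i + 1)]
      push_cast
      ring
  have e2 : hVector Z 2 = 1279 := by rw [hh, card2]; rfl
  have e3 : hVector Z 3 = 1264 := by rw [hh, card3]; rfl
  have e4 : hVector Z 4 = 1279 := by rw [hh, card4]; rfl
  refine ⟨Z, ?_, ?_, ⟨?_, ?_⟩, ?_, ?_, e2, e3, e4, ?_, ?_, ?_, ?_⟩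
  · rw [hZ, Finset.card_map, Finset.card_univ, AddChar.card_eq, card_Gr]
  · intro p hp
    obtain ⟨χ, rfl⟩ := (hZm p).1 hp
    refine ⟨fun i => χ (a i), hne χ, fun i => ?_, hpt χ⟩
    show χ (a i) ^ 10 = 1
    rw [← AddChar.map_nsmul_eq_pow]
    have h10 : (10 : ℕ) • (a i) = 0 := by
      generalize a i = g
      obtain ⟨x, k⟩ := g
      rw [Prod.smul_mk]
      have e1 : (10 : ℕ) • x = 0 := by
        ext j
        rw [Pi.smul_apply, Pi.zero_apply]
        generalize x j = z
        revert z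
        decide
      have e2 : (10 : ℕ) • k = 0 := by
        revert k
        decide
      rw [e1, e2]
      rfl
    rw [h10, AddChar.map_zero_eq_one]
  · refine ⟨X j0, isHomogeneous_X ℂ j0, fun p hp => ?_⟩
    obtain ⟨χ, rfl⟩ := (hZm p).1 hp
    rw [Ne, hev (X j0) 1 (isHomogeneous_X ℂ j0) χ, eval_X, h1 χ]
    exact one_ne_zero
  · intro l hl
    have hL : Lin a l := by
      refine ⟨hl.1, fun χ => ?_⟩
      rw [← eval_one' hl.1]
      intro h
      exact hl.2 _ ((hZm _).2 ⟨χ, rfl⟩) ((hev l 1 hl.1 χ).2 h)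
    have hLe : Ln (1, 1) ≠ 0 := by rw [Ln_top]; decide
    obtain ⟨p, hp1, hp2, hp3⟩ := socle_all hlen hj0 hI hL (1, 1) hLe Ln_lt fun g hg => by
      obtain ⟨s, hs, hs'⟩ := Ln_up g hg
      obtain ⟨i, rfl⟩ := (ha s).1 hs
      exact ⟨i, hs'⟩
    obtain ⟨J, hJ⟩ : ∃ J, J = pointIdeal Z ⊔ Ideal.span {l} := ⟨_, rfl⟩
    rw [← hJ] at hp1 hp2 hp3 ⊢
    have hmem : Ideal.Quotient.mk J p ∈ socle J := by
      intro j
      rw [← map_mul, Ideal.Quotient.eq_zero_iff_mem]
      exact hp2 j
    have hv0 : (⟨Ideal.Quotient.mk J p, hmem⟩ : socle J) ≠ 0 := by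
      intro h
      apply hp1
      rw [← Ideal.Quotient.eq_zero_iff_mem]
      exact congrArg Subtype.val h
    rw [finrank_eq_one_iff_of_nonzero' _ hv0]
    rintro ⟨w, hw⟩
    obtain ⟨f, rfl⟩ := Ideal.Quotient.mk_surjective w
    obtain ⟨c, hc⟩ := hp3 f fun j => by
      rw [← Ideal.Quotient.eq_zero_iff_mem, map_mul]
      exact hw j
    refine ⟨c, Subtype.ext ?_⟩
    show c • Ideal.Quotient.mk J p = Ideal.Quotient.mk J f
    rw [← Ideal.Quotient.eq_zero_iff_mem, map_sub, sub_eq_zero] at hc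
    rw [hc, ← smul_eq_C_mul]
    rfl
  · rw [hh, card0]; rfl
  · rw [hh, card1]; rfl
  · rw [hh, card5]; rfl
  · rw [hh, card6]; rfl
  · intro i hi
    rw [hh, card_big i hi]; rfl
  · rintro ⟨j, hj1, hj2⟩
    by_cases hj : 2 < j
    · have := hj1 2 hj
      rw [e2, e3] at this
      omega
    · have := hj2 3 (by omega)
      rw [e3, e4] at this
      omega

end

end Pool.Agent.Results.MP_845d9e_ag.GorensteinPoints
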